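import Mathlib

set_option autoImplicit false

namespace Y847.HA

/-- The sign attached to the second block column. -/
def sg (b : Bool) : ℤˣ := if b then -1 else 1

lemma u1 : ∀ a b d : ℤˣ, ∀ m : ℤˣ, d = a * b * m → m = a * b * d := by decide
lemma u2 : ∀ r c c' h m m' : ℤˣ, h = r * c * m → h = r * c' * m' → m * m' = c * c' := by decide
lemma u3 : ∀ r c c' h m m' : ℤˣ, 1 * h = r * c * m → (-1) * h = r * c' * m' →
    m * m' = -(c * c') := by decide
lemma u4 : ∀ x : ℤˣ, x ≠ -x := by decide

lemma back {n : ℕ} {I : Type} (e : Bool × Fin n ≃ I) (m : I) (b : Bool) (h : (e.symm m).1 = b) :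
    m = e (b, (e.symm m).2) := by
  subst h
  rw [Prod.mk.eta, Equiv.apply_symm_apply]

section core

variable {n s : ℕ} {I J : Type} (M : I → J → ℤˣ) (H G H' G' : Fin n → Fin n → ℤˣ)
  (π π' : Bool × Fin n ≃ I) (ρ ρ' : Bool × Fin n ≃ J) (r c r' c' : Bool × Fin n → ℤˣ)

/-- Two matrices `[[H, H], [G, -G]]`, `[[H', H'], [G', -G']]` which are equivalent to the same
matrix `M`, with the same images (and signs) of the separating rows: the equivalence respects the
blocks. -/
theorem blocks
    (h0 : ∀ x b y, H x y = r (false, x) * c (b, y) * M (π (false, x)) (ρ (b, y)))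
    (h1 : ∀ x b y, sg b * G x y = r (true, x) * c (b, y) * M (π (true, x)) (ρ (b, y)))
    (h0' : ∀ x b y, H' x y = r' (false, x) * c' (b, y) * M (π' (false, x)) (ρ' (b, y)))
    (h1' : ∀ x b y, sg b * G' x y = r' (true, x) * c' (b, y) * M (π' (true, x)) (ρ' (b, y)))
    (hs : 0 < s) (R R' : Fin s → Fin n) (hR : ∀ l, π (false, R l) = π' (false, R' l))
    (hr : ∀ l, r (false, R l) = r' (false, R' l))
    (sep : ∀ y y' (e : ℤˣ), (∀ l, H (R l) y = e * H (R l) y') → y = y')
    (sep' : ∀ y y' (e : ℤˣ), (∀ l, H' (R' l) y = e * H' (R' l) y') → y = y') :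
    ∃ (ω θ₀ θ₁ : Equiv.Perm (Fin n)) (β : Fin n → Bool),
      (∀ y, ρ' (false, y) = ρ (β y, ω y)) ∧ (∀ x, π (false, x) = π' (false, θ₀ x)) ∧
      (∀ x, π (true, x) = π' (true, θ₁ x)) := by
  classical
  -- the block of a column
  have hcol : ∀ (b : Bool) (y : Fin n) (l : Fin s), H (R l) (ρ.symm (ρ' (b, y))).2 =
      (c (ρ.symm (ρ' (b, y))) * c' (b, y)) * H' (R' l) y := by
    intro b y l
    have e1 := h0 (R l) (ρ.symm (ρ' (b, y))).1 (ρ.symm (ρ' (b, y))).2
    have e2 := h0' (R' l) b y
    rw [Prod.mk.eta, Equiv.apply_symm_apply] at e1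
    rw [← hR l, ← hr l] at e2
    rw [e1, e2]
    have key : ∀ r c c' m : ℤˣ, r * c * m = c * c' * (r * c' * m) := by decide
    exact key _ _ _ _
  have hA : ∀ (b : Bool) (y : Fin n), (ρ.symm (ρ' (b, y))).2 = (ρ.symm (ρ' (false, y))).2 := by
    intro b y
    refine sep _ _ ((c (ρ.symm (ρ' (b, y))) * c' (b, y)) *
      (c (ρ.symm (ρ' (false, y))) * c' (false, y))) (fun l => ?_)
    rw [hcol b y l, hcol false y l]
    have key : ∀ a b m : ℤˣ, a * m = a * b * (b * m) := by decide
    exact key _ _ _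
  have hinj : Function.Injective (fun y => (ρ.symm (ρ' (false, y))).2) := by
    intro y y' hyy
    refine sep' _ _ ((c (ρ.symm (ρ' (false, y))) * c' (false, y)) *
      (c (ρ.symm (ρ' (false, y'))) * c' (false, y'))) (fun l => ?_)
    have e1 := hcol false y l
    have e2 := hcol false y' l
    have e3 : (ρ.symm (ρ' (false, y))).2 = (ρ.symm (ρ' (false, y'))).2 := hyy
    rw [e3] at e1
    have key : ∀ a b m m' h : ℤˣ, h = a * m → h = b * m' → m = a * b * m' := by decide
    exact key _ _ _ _ _ e1 e2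
  let ω : Equiv.Perm (Fin n) := Equiv.ofBijective _ (Finite.injective_iff_bijective.1 hinj)
  have hω : ∀ y, ω y = (ρ.symm (ρ' (false, y))).2 := fun y => rfl
  let β : Fin n → Bool := fun y => (ρ.symm (ρ' (false, y))).1
  have hβ : ∀ y, ρ' (false, y) = ρ (β y, ω y) := by
    intro y
    rw [hω]
    change _ = ρ ((ρ.symm (ρ' (false, y))).1, (ρ.symm (ρ' (false, y))).2)
    rw [Prod.mk.eta, Equiv.apply_symm_apply]
  have hβ' : ∀ y, ρ' (true, y) = ρ (!(β y), ω y) := by
    intro y
    have e1 : ρ' (true, y) = ρ ((ρ.symm (ρ' (true, y))).1, ω y) := by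
      rw [hω, ← hA true y, Prod.mk.eta, Equiv.apply_symm_apply]
    have e2 : (ρ.symm (ρ' (true, y))).1 ≠ β y := by
      intro h
      have e3 : ρ' (true, y) = ρ' (false, y) := by
        rw [e1, hβ y, h]
      have := ρ'.injective e3
      simp at this
    rw [e1]
    congr 2
    revert e2
    generalize (ρ.symm (ρ' (true, y))).1 = a
    generalize β y = b
    revert a b
    decide
  have hχ : ∀ (m : I) (y : Fin n), M m (ρ' (false, y)) * M m (ρ' (true, y)) =
      M m (ρ (false, ω y)) * M m (ρ (true, ω y)) := by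
    intro m y
    rw [hβ, hβ']
    cases β y
    · rfl
    · rw [mul_comm]
      rfl
  have hD0 : ∀ x y, M (π (false, x)) (ρ (false, y)) * M (π (false, x)) (ρ (true, y)) =
      c (false, y) * c (true, y) := fun x y => u2 _ _ _ _ _ _ (h0 x false y) (h0 x true y)
  have hD1 : ∀ x y, M (π (true, x)) (ρ (false, y)) * M (π (true, x)) (ρ (true, y)) =
      -(c (false, y) * c (true, y)) := fun x y => u3 _ _ _ _ _ _ (h1 x false y) (h1 x true y)
  have hD0' : ∀ x y, M (π' (false, x)) (ρ' (false, y)) * M (π' (false, x)) (ρ' (true, y)) =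
      c' (false, y) * c' (true, y) := fun x y => u2 _ _ _ _ _ _ (h0' x false y) (h0' x true y)
  have hD1' : ∀ x y, M (π' (true, x)) (ρ' (false, y)) * M (π' (true, x)) (ρ' (true, y)) =
      -(c' (false, y) * c' (true, y)) :=
    fun x y => u3 _ _ _ _ _ _ (h1' x false y) (h1' x true y)
  have hκ : ∀ y, c' (false, y) * c' (true, y) = c (false, ω y) * c (true, ω y) := by
    intro y
    have e1 := hD0' (R' ⟨0, hs⟩) y
    rw [← hR, hχ, hD0] at e1
    exact e1.symm
  have hF0 : ∀ x, (π'.symm (π (false, x))).1 = false := by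
    intro x
    by_contra hcon
    have hcon' : (π'.symm (π (false, x))).1 = true := by simpa using hcon
    have e1 : π (false, x) = π' (true, (π'.symm (π (false, x))).2) := by
      rw [← hcon', Prod.mk.eta, Equiv.apply_symm_apply]
    have e2 := hD1' (π'.symm (π (false, x))).2 x
    rw [← e1, hχ, hD0, hκ] at e2
    exact u4 _ e2
  have hF1 : ∀ x, (π'.symm (π (true, x))).1 = true := by
    intro x
    by_contra hcon
    have hcon' : (π'.symm (π (true, x))).1 = false := by simpa using hcon
    have e1 : π (true, x) = π' (false, (π'.symm (π (true, x))).2) := by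
      rw [← hcon', Prod.mk.eta, Equiv.apply_symm_apply]
    have e2 := hD0' (π'.symm (π (true, x))).2 x
    rw [← e1, hχ, hD1, hκ] at e2
    exact u4 _ e2.symm
  have hG0 : ∀ x, π (false, x) = π' (false, (π'.symm (π (false, x))).2) :=
    fun x => back π' _ _ (hF0 x)
  have hG1 : ∀ x, π (true, x) = π' (true, (π'.symm (π (true, x))).2) :=
    fun x => back π' _ _ (hF1 x)
  have hi0 : Function.Injective (fun x => (π'.symm (π (false, x))).2) := by
    intro x x' hxx
    have hxx' : (π'.symm (π (false, x))).2 = (π'.symm (π (false, x'))).2 := hxx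
    have e1 := hG0 x
    rw [hxx', ← hG0 x'] at e1
    have := π.injective e1
    simpa using this
  have hi1 : Function.Injective (fun x => (π'.symm (π (true, x))).2) := by
    intro x x' hxx
    have hxx' : (π'.symm (π (true, x))).2 = (π'.symm (π (true, x'))).2 := hxx
    have e1 := hG1 x
    rw [hxx', ← hG1 x'] at e1
    have := π.injective e1
    simpa using this
  exact ⟨ω, Equiv.ofBijective _ (Finite.injective_iff_bijective.1 hi0),
    Equiv.ofBijective _ (Finite.injective_iff_bijective.1 hi1), β, hβ, hG0, hG1⟩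

end core

end Y847.HA
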