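import Pool.Agent.Y847.HA.Main

set_option autoImplicit false

namespace Y847.HA

open Finset Pool.Agent.Results.MP_ced6ff_co.HadamardClasses
open scoped Nat

/-- The counting theorem: if `n² ≤ 2^(k+1)`, then `h(n)² n! ≤ h(2n) ((4n)^(k+1))²`. -/
theorem count {n : ℕ} (hn : 0 < n) (k : ℕ) (hk : n * n ≤ 2 ^ (k + 1)) :
    numClasses n * numClasses n * n ! ≤
      numClasses (2 * n) * ((2 * n * 2) ^ (k + 1) * (2 * n * 2) ^ (k + 1)) := by
  classical
  choose R hR using fun a : Quotient (hadamardSetoid n) => hadamard_sep hn (rep_hadamard a) k hk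
  choose π ρ r c hA hB using fun x : X n => exists_equiv x
  let enc : X n → Quotient (hadamardSetoid (2 * n)) ×
      ((Fin (k + 1) → Fin (2 * n) × ℤˣ) × (Fin (k + 1) → Fin (2 * n) × ℤˣ)) := fun x =>
    (cl x, (fun l => (π x (false, R x.1.1 l), r x (false, R x.1.1 l)),
      fun l => (π x (true, R x.1.2 l), r x (true, R x.1.2 l))))
  have hinj : Function.Injective enc := by
    rintro ⟨⟨a, b⟩, σ⟩ ⟨⟨a', b'⟩, σ'⟩ hxx
    obtain ⟨x, hx⟩ : ∃ x : X n, x = ((a, b), σ) := ⟨_, rfl⟩
    obtain ⟨x', hx'⟩ : ∃ x' : X n, x' = ((a', b'), σ') := ⟨_, rfl⟩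
    have hAx := hA x
    have hBx := hB x
    have hAx' := hA x'
    have hBx' := hB x'
    rw [← hx, ← hx'] at hxx
    simp only [enc, Prod.mk.injEq] at hxx
    obtain ⟨hq, hc0, hc1⟩ := hxx
    rw [← hq] at hAx' hBx'
    have ea : x.1.1 = a := by rw [hx]
    have eb : x.1.2 = b := by rw [hx]
    have es : x.2 = σ := by rw [hx]
    have ea' : x'.1.1 = a' := by rw [hx']
    have eb' : x'.1.2 = b' := by rw [hx']
    have es' : x'.2 = σ' := by rw [hx']
    rw [ea] at hAx
    rw [eb, es] at hBx
    rw [ea'] at hAx'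
    rw [eb', es'] at hBx'
    rw [ea, ea'] at hc0
    rw [eb, eb'] at hc1
    have h0t : ∀ l, π x (false, R a l) = π x' (false, R a' l) :=
      fun l => congrArg Prod.fst (congrFun hc0 l)
    have h0s : ∀ l, r x (false, R a l) = r x' (false, R a' l) :=
      fun l => congrArg Prod.snd (congrFun hc0 l)
    have h1t : ∀ l, π x (true, R b l) = π x' (true, R b' l) :=
      fun l => congrArg Prod.fst (congrFun hc1 l)
    have h1s : ∀ l, r x (true, R b l) = r x' (true, R b' l) :=
      fun l => congrArg Prod.snd (congrFun hc1 l)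
    obtain ⟨ω, θ₀, θ₁, β, hβ, hθ₀, hθ₁⟩ := blocks (un (rep (cl x))) (un (rep a))
      (fun y z => un (rep b) y (σ z)) (un (rep a')) (fun y z => un (rep b') y (σ' z))
      (π x) (π x') (ρ x) (ρ x') (r x) (c x) (r x') (c x') hAx hBx hAx' hBx'
      (Nat.succ_pos k) (R a) (R a') h0t h0s (hR a) (hR a')
    have haa : a = a' := by
      apply rep_eq
      apply equiv_of_un (rep_hadamard _).1 (rep_hadamard _).1 θ₀.symm ω
        (fun i => r x (false, θ₀.symm i) * r x' (false, i))
        (fun j => c x (β j, ω j) * c x' (false, j))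
      intro i j
      have e1 := hAx (θ₀.symm i) (β j) (ω j)
      have e2 := hAx' i false j
      have e3 := hθ₀ (θ₀.symm i)
      rw [Equiv.apply_symm_apply] at e3
      rw [hβ j, ← e3] at e2
      rw [e1, e2]
      have key : ∀ r c r' c' m : ℤˣ, r' * c' * m = (r * r') * (c * c') * (r * c * m) := by decide
      exact key _ _ _ _ _
    have hbb : b = b' := by
      apply rep_eq
      apply equiv_of_un (rep_hadamard _).1 (rep_hadamard _).1 θ₁.symm
        ((σ'.symm.trans ω).trans σ)
        (fun i => r x (true, θ₁.symm i) * r x' (true, i))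
        (fun j => sg (β (σ'.symm j)) * c x (β (σ'.symm j), ω (σ'.symm j)) *
          c x' (false, σ'.symm j))
      intro i j
      have e1 := hBx (θ₁.symm i) (β (σ'.symm j)) (ω (σ'.symm j))
      have e2 := hBx' i false (σ'.symm j)
      have e3 := hθ₁ (θ₁.symm i)
      rw [Equiv.apply_symm_apply] at e3
      rw [hβ (σ'.symm j), ← e3, Equiv.apply_symm_apply] at e2
      simp only [Equiv.trans_apply]
      have key : ∀ s r c r' c' m k k' : ℤˣ, s * k = r * c * m → 1 * k' = r' * c' * m →
          k' = (r * r') * (s * c * c') * k := by decide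
      exact key _ _ _ _ _ _ _ _ e1 e2
    subst haa
    subst hbb
    have hω : ∀ z, ω z = z := by
      intro z
      refine hR a _ _ (c x (β z, ω z) * c x' (false, z)) (fun l => ?_)
      have e1 := hAx (R a l) (β z) (ω z)
      have e2 := hAx' (R a l) false z
      rw [hβ z, ← h0t l, ← h0s l] at e2
      rw [e1, e2]
      have key : ∀ r c c' m : ℤˣ, r * c * m = c * c' * (r * c' * m) := by decide
      exact key _ _ _ _
    have hσ : σ = σ' := by
      apply Equiv.ext
      intro z
      refine hR b _ _ (sg (β z) * c x (β z, ω z) * c x' (false, z)) (fun l => ?_)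
      have e1 := hBx (R b l) (β z) (ω z)
      have e2 := hBx' (R b l) false z
      rw [hβ z, ← h1t l, ← h1s l] at e2
      have key : ∀ s r c c' m k k' : ℤˣ, s * k = r * c * m → 1 * k' = r * c' * m →
          k = (s * c * c') * k' := by decide
      have e3 := key _ _ _ _ _ _ _ e1 e2
      rw [hω z] at e3 ⊢
      exact e3
    rw [hσ]
  have h1 := Nat.card_le_card_of_injective enc hinj
  have h2 : Nat.card (X n) = numClasses n * numClasses n * n ! := by
    rw [Nat.card_prod, Nat.card_prod, Nat.card_perm, Nat.card_fin]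
    rfl
  have h3 : Nat.card (Fin (k + 1) → Fin (2 * n) × ℤˣ) = (2 * n * 2) ^ (k + 1) := by
    rw [Nat.card_eq_fintype_card, Fintype.card_fun, Fintype.card_prod, Fintype.card_fin,
      Fintype.card_fin, Fintype.card_units_int]
  rw [h2, Nat.card_prod, Nat.card_prod, h3] at h1
  exact h1

end Y847.HA
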