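import Pool.Agent.Y847.HA.Count

set_option autoImplicit false

namespace Y847.HA

open Finset Pool.Agent.Results.MP_ced6ff_co.HadamardClasses
open scoped Nat

/-- `h(n)² n! ≤ h(2n) (4n)^(4 ⌈log₂ n⌉)` for `n ≥ 2`. -/
theorem squared {n : ℕ} (hn : 2 ≤ n) :
    numClasses n ^ 2 * n ! ≤ numClasses (2 * n) * (4 * n) ^ (4 * Nat.clog 2 n) := by
  have hL : 1 ≤ Nat.clog 2 n := by
    have := Nat.clog_pos (b := 2) (n := n) (by norm_num) hn
    omega
  have hpow : n ≤ 2 ^ Nat.clog 2 n := Nat.le_pow_clog (by norm_num) n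
  have h1 := count (n := n) (by omega) (2 * Nat.clog 2 n - 1) (by
    have e1 : 2 * Nat.clog 2 n - 1 + 1 = Nat.clog 2 n + Nat.clog 2 n := by omega
    rw [e1, pow_add]
    exact Nat.mul_le_mul hpow hpow)
  have e2 : 2 * Nat.clog 2 n - 1 + 1 = 2 * Nat.clog 2 n := by omega
  rw [e2] at h1
  calc numClasses n ^ 2 * n ! = numClasses n * numClasses n * n ! := by ring
    _ ≤ _ := h1
    _ = numClasses (2 * n) * (4 * n) ^ (4 * Nat.clog 2 n) := by
      rw [← pow_add]
      congr 1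
      have e3 : 2 * n * 2 = 4 * n := by ring
      have e4 : 2 * Nat.clog 2 n + 2 * Nat.clog 2 n = 4 * Nat.clog 2 n := by ring
      rw [e3, e4]

lemma fac_pow (p : ℕ) : p ^ p ≤ (p + p)! := by
  calc p ^ p ≤ (p + 1) ^ p := Nat.pow_le_pow_left (by omega) p
    _ ≤ p ! * (p + 1) ^ p := Nat.le_mul_of_pos_left _ (Nat.factorial_pos p)
    _ ≤ _ := Nat.factorial_mul_pow_le_factorial

lemma aux (t : ℕ) : 4 * ((t + 8) * (t + 10)) < (t + 6) * 2 ^ (t + 6) := by
  have h : ∀ t : ℕ, 4 * ((t + 8) * (t + 10)) < 6 * 2 ^ (t + 6) := by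
    intro t
    induction t with
    | zero => norm_num
    | succ t ih =>
      have e1 : 6 * 2 ^ (t + 1 + 6) = 2 * (6 * 2 ^ (t + 6)) := by ring
      rw [e1]
      nlinarith
  refine (h t).trans_le (Nat.mul_le_mul_right _ (by omega))

/-- `(4n)^(4 ⌈log₂ n⌉) < n!` for `n ≥ 44`. -/
theorem fac_big (n : ℕ) (hn : 44 ≤ n) : (4 * n) ^ (4 * Nat.clog 2 n) < n ! := by
  have mono : ∀ a b c L N : ℕ, a ≤ n → n ≤ b → n ≤ 2 ^ L → 4 * b ≤ N → 0 < n →
      N ^ (4 * L) < a ! → (4 * n) ^ (4 * Nat.clog 2 n) < n ! := by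
    intro a b _ L N ha hb hL hN h0 hlt
    have h1 : Nat.clog 2 n ≤ L := Nat.clog_le_of_le_pow hL
    calc (4 * n) ^ (4 * Nat.clog 2 n) ≤ (4 * n) ^ (4 * L) :=
          Nat.pow_le_pow_right (by omega) (by omega)
      _ ≤ N ^ (4 * L) := Nat.pow_le_pow_left (by omega) _
      _ < a ! := hlt
      _ ≤ n ! := Nat.factorial_le ha
  rcases le_or_gt n 128 with h128 | h128
  · rcases le_or_gt n 64 with h64 | h64
    · rcases le_or_gt 47 n with h47 | h47
      · refine mono 47 64 0 6 256 h47 h64 (by omega) (by norm_num) (by omega) ?_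
        norm_num [Nat.factorial]
      · rcases le_or_gt 45 n with h45 | h45
        · rcases le_or_gt 46 n with h46 | h46
          · refine mono 46 46 0 6 184 h46 (by omega) (by omega) (by norm_num) (by omega) ?_
            norm_num [Nat.factorial]
          · refine mono 45 45 0 6 180 h45 (by omega) (by omega) (by norm_num) (by omega) ?_
            norm_num [Nat.factorial]
        · refine mono 44 44 0 6 176 hn (by omega) (by omega) (by norm_num) (by omega) ?_
          norm_num [Nat.factorial]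
    · refine mono 65 128 0 7 512 (by omega) h128 (by omega) (by norm_num) (by omega) ?_
      norm_num [Nat.factorial]
  · have hL8 : 8 ≤ Nat.clog 2 n := by
      by_contra hcon
      have h1 : Nat.clog 2 n ≤ 7 := by omega
      have h2 : n ≤ 2 ^ 7 :=
        (Nat.le_pow_clog (by norm_num) n).trans (Nat.pow_le_pow_right (by norm_num) h1)
      omega
    obtain ⟨t, ht⟩ : ∃ t, Nat.clog 2 n = t + 8 := ⟨Nat.clog 2 n - 8, by omega⟩
    have hup : n ≤ 2 ^ (t + 8) := by
      rw [← ht]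
      exact Nat.le_pow_clog (by norm_num) n
    have hlow : 2 ^ (t + 7) < n := by
      have := Nat.pow_pred_clog_lt_self (b := 2) (x := n) (by norm_num) (by omega)
      rw [ht] at this
      simpa using this
    rw [ht]
    calc (4 * n) ^ (4 * (t + 8)) ≤ (2 ^ (t + 10)) ^ (4 * (t + 8)) := by
          apply Nat.pow_le_pow_left
          have : 2 ^ (t + 10) = 4 * 2 ^ (t + 8) := by ring
          rw [this]
          exact Nat.mul_le_mul_left 4 hup
      _ = 2 ^ (4 * ((t + 8) * (t + 10))) := by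
          rw [← pow_mul]
          congr 1
          ring
      _ < 2 ^ ((t + 6) * 2 ^ (t + 6)) := Nat.pow_lt_pow_right (by norm_num) (aux t)
      _ = (2 ^ (t + 6)) ^ (2 ^ (t + 6)) := by rw [pow_mul]
      _ ≤ (2 ^ (t + 6) + 2 ^ (t + 6))! := fac_pow _
      _ ≤ n ! := by
          apply Nat.factorial_le
          have : 2 ^ (t + 6) + 2 ^ (t + 6) = 2 ^ (t + 7) := by ring
          omega

/-- `h(n)² < h(2n)` for all `n ≥ 44` with `h(n) > 0`. -/
theorem strict {n : ℕ} (hn : 44 ≤ n) (h0 : 0 < numClasses n) :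
    numClasses n ^ 2 < numClasses (2 * n) := by
  have h1 := squared (n := n) (by omega)
  have h2 := fac_big n hn
  by_contra hcon
  push Not at hcon
  have h3 : 0 < numClasses n ^ 2 := pow_pos h0 2
  have h4 : numClasses (2 * n) * (4 * n) ^ (4 * Nat.clog 2 n) <
      numClasses n ^ 2 * n ! := by
    calc numClasses (2 * n) * (4 * n) ^ (4 * Nat.clog 2 n)
        ≤ numClasses n ^ 2 * (4 * n) ^ (4 * Nat.clog 2 n) := Nat.mul_le_mul_right _ hcon
      _ < _ := Nat.mul_lt_mul_of_pos_left h2 h3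
  exact absurd h1 (not_le.2 h4)

/-- The gain after `k` doublings. -/
def gain (n : ℕ) : ℕ → ℕ
  | 0 => 0
  | k + 1 => 2 * gain n k + (k - 1) * (2 ^ (k - 1) * n)

lemma gain_eq (n : ℕ) : ∀ k, 8 * gain n k = 2 ^ k * n * ((k - 1) * (k - 2)) := by
  intro k
  induction k with
  | zero => simp [gain]
  | succ k ih =>
    rcases k with _ | k
    · simp [gain]
    · have e1 : gain n (k + 1 + 1) = 2 * gain n (k + 1) + k * (2 ^ k * n) := by
        simp [gain]
      rw [e1, Nat.mul_add]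
      have e2 : 8 * (2 * gain n (k + 1)) = 2 * (8 * gain n (k + 1)) := by ring
      rw [e2, ih]
      rcases k with _ | k
      · simp
      · have e3 : k + 1 + 1 - 1 = k + 1 := rfl
        have e4 : k + 1 + 1 - 2 = k := rfl
        have e5 : k + 1 + 1 + 1 - 1 = k + 2 := rfl
        have e6 : k + 1 + 1 + 1 - 2 = k + 1 := rfl
        rw [e3, e4, e5, e6]
        ring

/-- The polynomial controlling the losses. -/
def gg (u : ℕ) : ℕ := 4 * u ^ 2 + 20 * u + 32

theorem growth {n : ℕ} (hn : 0 < n) (k : ℕ) :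
    numClasses n ^ (2 ^ k) * 2 ^ (gain n k + gg (k + Nat.clog 2 n)) ≤
      numClasses (2 ^ k * n) * 2 ^ (2 ^ k * gg (Nat.clog 2 n)) := by
  obtain ⟨l, hl⟩ : ∃ l, l = Nat.clog 2 n := ⟨_, rfl⟩
  rw [← hl]
  have hnl : n ≤ 2 ^ l := by
    rw [hl]
    exact Nat.le_pow_clog (by norm_num) n
  induction k with
  | zero => simp [gain]
  | succ k ih =>
    have hm : 2 ^ k * n ≤ 2 ^ (k + l) := by
      rw [pow_add]
      exact Nat.mul_le_mul_left _ hnl
    have hc := count (n := 2 ^ k * n) (Nat.mul_pos (pow_pos (by norm_num) k) hn)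
      (2 * (k + l) + 1) (by
        calc 2 ^ k * n * (2 ^ k * n) ≤ 2 ^ (k + l) * 2 ^ (k + l) := Nat.mul_le_mul hm hm
          _ = 2 ^ (2 * (k + l)) := by rw [← pow_add]; congr 1; ring
          _ ≤ _ := Nat.pow_le_pow_right (by norm_num) (by omega))
    have hB : (2 * (2 ^ k * n) * 2) ^ (2 * (k + l) + 1 + 1) *
        (2 * (2 ^ k * n) * 2) ^ (2 * (k + l) + 1 + 1) ≤
        2 ^ (4 * ((k + l + 1) * (k + l + 2))) := by
      have h1 : 2 * (2 ^ k * n) * 2 ≤ 2 ^ (k + l + 2) := by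
        have : 2 ^ (k + l + 2) = 2 * 2 ^ (k + l) * 2 := by ring
        rw [this]
        exact Nat.mul_le_mul_right 2 (Nat.mul_le_mul_left 2 hm)
      calc (2 * (2 ^ k * n) * 2) ^ (2 * (k + l) + 1 + 1) *
          (2 * (2 ^ k * n) * 2) ^ (2 * (k + l) + 1 + 1)
          ≤ (2 ^ (k + l + 2)) ^ (2 * (k + l) + 1 + 1) * (2 ^ (k + l + 2)) ^ (2 * (k + l) + 1 + 1) :=
            Nat.mul_le_mul (Nat.pow_le_pow_left h1 _) (Nat.pow_le_pow_left h1 _)
        _ = _ := by
            rw [← pow_mul, ← pow_add]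
            congr 1
            ring
    have hfac : 2 ^ ((k - 1) * (2 ^ (k - 1) * n)) ≤ (2 ^ k * n)! := by
      rcases k with _ | k
      · simp only [Nat.zero_sub, zero_mul, pow_zero]
        exact Nat.succ_le_of_lt (Nat.factorial_pos _)
      · have e1 : k + 1 - 1 = k := rfl
        rw [e1]
        have h2 := fac_pow (2 ^ k * n)
        have e2 : 2 ^ k * n + 2 ^ k * n = 2 ^ (k + 1) * n := by ring
        rw [e2] at h2
        refine le_trans ?_ h2
        rw [pow_mul]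
        apply Nat.pow_le_pow_left
        exact Nat.le_mul_of_pos_right _ hn
    have e3 : 2 * (2 ^ k * n) = 2 ^ (k + 1) * n := by ring
    rw [e3] at hc hB
    have h4 : numClasses n ^ (2 ^ (k + 1)) * 2 ^ (gain n (k + 1) + gg (k + 1 + l)) *
        2 ^ (4 * ((k + l + 1) * (k + l + 2))) ≤
        numClasses (2 ^ (k + 1) * n) * 2 ^ (2 ^ (k + 1) * gg l) *
        2 ^ (4 * ((k + l + 1) * (k + l + 2))) := by
      calc numClasses n ^ (2 ^ (k + 1)) * 2 ^ (gain n (k + 1) + gg (k + 1 + l)) *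
          2 ^ (4 * ((k + l + 1) * (k + l + 2)))
          = (numClasses n ^ (2 ^ k) * 2 ^ (gain n k + gg (k + l))) *
            (numClasses n ^ (2 ^ k) * 2 ^ (gain n k + gg (k + l))) *
            2 ^ ((k - 1) * (2 ^ (k - 1) * n)) := by
            have e4 : gain n (k + 1) + gg (k + 1 + l) + 4 * ((k + l + 1) * (k + l + 2)) =
                (gain n k + gg (k + l)) + (gain n k + gg (k + l)) +
                  (k - 1) * (2 ^ (k - 1) * n) := by
              simp only [gain, gg]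
              ring
            have e5 : 2 ^ (k + 1) = 2 ^ k + 2 ^ k := by ring
            rw [mul_assoc, ← pow_add, e4, e5, pow_add, pow_add, pow_add]
            ring
        _ ≤ (numClasses (2 ^ k * n) * 2 ^ (2 ^ k * gg l)) *
            (numClasses (2 ^ k * n) * 2 ^ (2 ^ k * gg l)) * (2 ^ k * n)! :=
            Nat.mul_le_mul (Nat.mul_le_mul ih ih) hfac
        _ = (numClasses (2 ^ k * n) * numClasses (2 ^ k * n) * (2 ^ k * n)!) *
            2 ^ (2 ^ (k + 1) * gg l) := by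
            have e5 : 2 ^ (k + 1) * gg l = 2 ^ k * gg l + 2 ^ k * gg l := by ring
            rw [e5, pow_add]
            ring
        _ ≤ (numClasses (2 ^ (k + 1) * n) * 2 ^ (4 * ((k + l + 1) * (k + l + 2)))) *
            2 ^ (2 ^ (k + 1) * gg l) :=
            Nat.mul_le_mul_right _ (hc.trans (Nat.mul_le_mul_left _ hB))
        _ = _ := by ring
    exact Nat.le_of_mul_le_mul_right h4 (pow_pos (by norm_num) _)

/-- Explicit growth along `n, 2n, 4n, …`. -/
theorem growth8 {n : ℕ} (hn : 0 < n) (h0 : 0 < numClasses n) (k : ℕ) :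
    2 ^ (2 ^ k * n * ((k - 1) * (k - 2))) ≤
      numClasses (2 ^ k * n) ^ 8 * 2 ^ (2 ^ k * (8 * gg (Nat.clog 2 n))) := by
  have h1 := growth hn k
  have h2 : 2 ^ gain n k ≤ numClasses (2 ^ k * n) * 2 ^ (2 ^ k * gg (Nat.clog 2 n)) := by
    refine le_trans ?_ h1
    rw [pow_add, ← mul_assoc, mul_comm (numClasses n ^ 2 ^ k), mul_assoc]
    apply Nat.le_mul_of_pos_right
    exact Nat.mul_pos (pow_pos h0 _) (pow_pos (by norm_num) _)
  calc 2 ^ (2 ^ k * n * ((k - 1) * (k - 2))) = (2 ^ gain n k) ^ 8 := by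
        rw [← gain_eq, ← pow_mul, mul_comm]
    _ ≤ (numClasses (2 ^ k * n) * 2 ^ (2 ^ k * gg (Nat.clog 2 n))) ^ 8 :=
        Nat.pow_le_pow_left h2 8
    _ = _ := by
        rw [mul_pow, ← pow_mul]
        congr 2
        ring

/-- Asymptotic form. -/
theorem growth9 {n : ℕ} (hn : 0 < n) (h0 : 0 < numClasses n) :
    ∃ k₀ : ℕ, ∀ k ≥ k₀, 2 ^ (n * k ^ 2 * 2 ^ k) ≤ numClasses (2 ^ k * n) ^ 9 := by
  obtain ⟨C, hC⟩ : ∃ C, C = gg (Nat.clog 2 n) := ⟨_, rfl⟩
  refine ⟨27 + 72 * C + 3, fun k hk => ?_⟩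
  have h1 := growth8 hn h0 k
  rw [← hC] at h1
  -- raise to the power `9`
  have h2 : 2 ^ (9 * (2 ^ k * n * ((k - 1) * (k - 2)))) ≤
      (numClasses (2 ^ k * n) ^ 9) ^ 8 * 2 ^ (9 * (2 ^ k * (8 * C))) := by
    calc 2 ^ (9 * (2 ^ k * n * ((k - 1) * (k - 2)))) =
          (2 ^ (2 ^ k * n * ((k - 1) * (k - 2)))) ^ 9 := by rw [← pow_mul, mul_comm]
      _ ≤ (numClasses (2 ^ k * n) ^ 8 * 2 ^ (2 ^ k * (8 * C))) ^ 9 := Nat.pow_le_pow_left h1 9
      _ = _ := by
        rw [mul_pow, ← pow_mul, ← pow_mul, ← pow_mul]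
        congr 2
        ring
  have h3 : 8 * (n * k ^ 2 * 2 ^ k) + 9 * (2 ^ k * (8 * C)) ≤
      9 * (2 ^ k * n * ((k - 1) * (k - 2))) := by
    obtain ⟨t, ht⟩ : ∃ t, k = t + 2 := ⟨k - 2, by omega⟩
    have e1 : k - 1 = t + 1 := by omega
    have e2 : k - 2 = t := by omega
    rw [e1, e2]
    have h4 : 8 * (n * k ^ 2) + 72 * C ≤ 9 * (n * ((t + 1) * t)) := by
      have h5 : 8 * k ^ 2 + 72 * C ≤ 9 * ((t + 1) * t) := by
        rw [ht] at hk ⊢
        nlinarith
      calc 8 * (n * k ^ 2) + 72 * C ≤ 8 * (n * k ^ 2) + n * (72 * C) :=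
            Nat.add_le_add_left (Nat.le_mul_of_pos_left _ hn) _
        _ = n * (8 * k ^ 2 + 72 * C) := by ring
        _ ≤ n * (9 * ((t + 1) * t)) := Nat.mul_le_mul_left n h5
        _ = _ := by ring
    calc 8 * (n * k ^ 2 * 2 ^ k) + 9 * (2 ^ k * (8 * C))
        = 2 ^ k * (8 * (n * k ^ 2) + 72 * C) := by ring
      _ ≤ 2 ^ k * (9 * (n * ((t + 1) * t))) := Nat.mul_le_mul_left _ h4
      _ = _ := by ring
  have h6 : (2 ^ (n * k ^ 2 * 2 ^ k)) ^ 8 ≤ (numClasses (2 ^ k * n) ^ 9) ^ 8 := by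
    have h7 : (2 ^ (n * k ^ 2 * 2 ^ k)) ^ 8 * 2 ^ (9 * (2 ^ k * (8 * C))) ≤
        (numClasses (2 ^ k * n) ^ 9) ^ 8 * 2 ^ (9 * (2 ^ k * (8 * C))) := by
      refine le_trans ?_ h2
      rw [← pow_mul, ← pow_add]
      apply Nat.pow_le_pow_right (by norm_num)
      refine le_trans (le_of_eq ?_) h3
      ring
    exact Nat.le_of_mul_le_mul_right h7 (pow_pos (by norm_num) _)
  exact (Nat.pow_le_pow_iff_left (by norm_num)).1 h6

end Y847.HA
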