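import Pool.Agent.Results.MP_ced6ff_co.HadamardClasses

set_option autoImplicit false

namespace Y847.HA

open Finset Pool.Agent.Results.MP_ced6ff_co.HadamardClasses

lemma half_count {n : ℕ} (f : Fin n → ℤˣ) (h : ∑ r, (f r : ℤ) = 0) (e : ℤˣ) :
    2 * (univ.filter (fun r => f r = e)).card = n := by
  have h1 : ∀ a e : ℤˣ, (1 + (e : ℤ) * (a : ℤ)) = if a = e then 2 else 0 := by decide
  have h2 : ∑ r : Fin n, (1 + (e : ℤ) * (f r : ℤ)) = n := by
    rw [sum_add_distrib, ← mul_sum, h]
    simp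
  have h3 : ∑ r : Fin n, (1 + (e : ℤ) * (f r : ℤ)) =
      2 * ((univ.filter (fun r => f r = e)).card : ℤ) := by
    simp_rw [h1]
    rw [← sum_filter, sum_const, nsmul_eq_mul, mul_comm]
  have h4 : (2 : ℤ) * ((univ.filter (fun r => f r = e)).card : ℤ) = n := by rw [← h3, h2]
  exact_mod_cast h4

/-- Columns of a Hadamard matrix are orthogonal. -/
lemma col_orth {n : ℕ} {H : Matrix (Fin n) (Fin n) ℤ} (hH : IsHadamard H) {y y' : Fin n}
    (hy : y ≠ y') : ∑ r, H r y * H r y' = 0 := by
  have hn : 0 < n := y.pos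
  have hdet := det_ne_zero hH hn
  have hN : H * (H.transpose * H - (n : ℤ) • (1 : Matrix (Fin n) (Fin n) ℤ)) = 0 := by
    rw [Matrix.mul_sub, ← Matrix.mul_assoc, hH.2, Matrix.smul_mul, Matrix.one_mul,
      Matrix.mul_smul, Matrix.mul_one, sub_self]
  have hv : H.mulVec (fun k => (H.transpose * H - (n : ℤ) • (1 : Matrix (Fin n) (Fin n) ℤ)) k y')
      = 0 := by
    funext i
    have := congrFun (congrFun hN i) y'
    rw [Matrix.mul_apply] at this
    exact this
  have h0 := congrFun (Matrix.eq_zero_of_mulVec_eq_zero hdet hv) y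
  simp only [Matrix.sub_apply, Matrix.smul_apply, Matrix.one_apply_ne hy, smul_zero, sub_zero,
    Pi.zero_apply, Matrix.mul_apply, Matrix.transpose_apply] at h0
  exact h0

/-- Pairs of columns not separated by the rows `R`. -/
def Z {n k : ℕ} (H : Fin n → Fin n → ℤˣ) (R : Fin (k + 1) → Fin n) : Finset (Fin n × Fin n) :=
  univ.filter (fun p => p.1 < p.2 ∧ ∀ l, H (R l) p.1 * H (R l) p.2 = H (R 0) p.1 * H (R 0) p.2)

lemma exists_R {n : ℕ} (hn : 0 < n) (H : Fin n → Fin n → ℤˣ)
    (orth : ∀ y y', y ≠ y' → ∑ r, ((H r y * H r y' : ℤˣ) : ℤ) = 0) (k : ℕ) :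
    ∃ R : Fin (k + 1) → Fin n, 2 ^ (k + 1) * (Z H R).card ≤ n * n - n := by
  induction k with
  | zero =>
    refine ⟨fun _ => ⟨0, hn⟩, ?_⟩
    have hlt : (univ.filter (fun p : Fin n × Fin n => p.1 < p.2)).card =
        (univ.filter (fun p : Fin n × Fin n => p.2 < p.1)).card := by
      refine card_bij (fun p _ => (p.2, p.1)) ?_ ?_ ?_
      · intro p hp
        simpa using hp
      · intro p _ q _ h
        simp only [Prod.mk.injEq] at h
        exact Prod.ext h.2 h.1
      · intro p hp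
        exact ⟨(p.2, p.1), by simpa using hp, rfl⟩
    have h1 : (Z (k := 0) H (fun _ => (⟨0, hn⟩ : Fin n))).card ≤
        (univ.filter (fun p : Fin n × Fin n => p.1 < p.2)).card := by
      apply card_le_card
      intro p hp
      simp only [Z, mem_filter] at hp ⊢
      exact ⟨mem_univ _, hp.2.1⟩
    have h2 : (univ.filter (fun p : Fin n × Fin n => p.1 < p.2)).card +
        (univ.filter (fun p : Fin n × Fin n => p.2 < p.1)).card ≤ n * n - n := by
      rw [← card_union_of_disjoint]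
      · have h3 : (univ.filter (fun p : Fin n × Fin n => p.1 < p.2)) ∪
            (univ.filter (fun p : Fin n × Fin n => p.2 < p.1)) ⊆ (univ : Finset (Fin n)).offDiag := by
          intro p hp
          rw [mem_offDiag]
          refine ⟨mem_univ _, mem_univ _, ?_⟩
          rcases mem_union.1 hp with h | h
          · exact ((mem_filter.1 h).2).ne
          · exact ((mem_filter.1 h).2).ne'
        refine (card_le_card h3).trans ?_
        rw [offDiag_card, card_univ, Fintype.card_fin]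
      · rw [disjoint_left]
        intro p hp hq
        exact absurd (mem_filter.1 hp).2 (mem_filter.1 hq).2.asymm
    have h3 : 2 ^ (0 + 1) * (Z (k := 0) H (fun _ => (⟨0, hn⟩ : Fin n))).card =
        (Z (k := 0) H (fun _ => (⟨0, hn⟩ : Fin n))).card +
        (Z (k := 0) H (fun _ => (⟨0, hn⟩ : Fin n))).card := by ring
    rw [h3]
    exact (Nat.add_le_add (h1.trans hlt.le) h1).trans (by rw [add_comm]; exact h2)
  | succ k ih =>
    obtain ⟨R, hR⟩ := ih
    have hne : (univ : Finset (Fin n)).Nonempty := ⟨⟨0, hn⟩, mem_univ _⟩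
    obtain ⟨r, hr⟩ : ∃ r : Fin n, 2 * ((Z H R).filter (fun p => H r p.1 * H r p.2 =
        H (R 0) p.1 * H (R 0) p.2)).card ≤ (Z H R).card := by
      by_contra hcon
      push Not at hcon
      have h1 : ∑ _r : Fin n, (Z H R).card < ∑ r : Fin n, 2 * ((Z H R).filter (fun p =>
          H r p.1 * H r p.2 = H (R 0) p.1 * H (R 0) p.2)).card :=
        sum_lt_sum_of_nonempty hne (fun r _ => hcon r)
      have h2 : ∑ r : Fin n, 2 * ((Z H R).filter (fun p =>
          H r p.1 * H r p.2 = H (R 0) p.1 * H (R 0) p.2)).card = ∑ _p ∈ Z H R, n := by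
        simp_rw [card_filter, mul_sum]
        rw [sum_comm]
        apply sum_congr rfl
        intro p hp
        have hne' : p.1 ≠ p.2 := ((mem_filter.1 hp).2.1).ne
        have h3 := half_count (fun r => H r p.1 * H r p.2) (orth p.1 p.2 hne')
          (H (R 0) p.1 * H (R 0) p.2)
        rw [← mul_sum, ← card_filter]
        exact h3
      rw [h2] at h1
      simp only [sum_const, card_univ, Fintype.card_fin, smul_eq_mul] at h1
      rw [mul_comm] at h1
      exact lt_irrefl _ h1
    refine ⟨Fin.snoc R r, ?_⟩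
    have hsub : (Z H (Fin.snoc R r : Fin (k + 1 + 1) → Fin n)).card ≤
        ((Z H R).filter (fun p => H r p.1 * H r p.2 = H (R 0) p.1 * H (R 0) p.2)).card := by
      apply card_le_card
      intro p hp
      obtain ⟨-, hp1, hp2⟩ := mem_filter.1 hp
      have h0 : (Fin.snoc R r : Fin (k + 1 + 1) → Fin n) 0 = R 0 := by
        have : (0 : Fin (k + 1 + 1)) = Fin.castSucc 0 := rfl
        rw [this, Fin.snoc_castSucc]
      rw [h0] at hp2
      rw [mem_filter, Z, mem_filter]
      refine ⟨⟨mem_univ _, hp1, fun l => ?_⟩, ?_⟩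
      · have := hp2 (Fin.castSucc l)
        rwa [Fin.snoc_castSucc] at this
      · have := hp2 (Fin.last _)
        rwa [Fin.snoc_last] at this
    calc 2 ^ (k + 1 + 1) * (Z H (Fin.snoc R r : Fin (k + 1 + 1) → Fin n)).card
        ≤ 2 ^ (k + 1 + 1) * ((Z H R).filter (fun p =>
          H r p.1 * H r p.2 = H (R 0) p.1 * H (R 0) p.2)).card := Nat.mul_le_mul_left _ hsub
      _ = 2 ^ (k + 1) * (2 * ((Z H R).filter (fun p =>
          H r p.1 * H r p.2 = H (R 0) p.1 * H (R 0) p.2)).card) := by ring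
      _ ≤ 2 ^ (k + 1) * (Z H R).card := Nat.mul_le_mul_left _ hr
      _ ≤ _ := hR

/-- Separating rows: `k + 1` rows with `n² ≤ 2^(k+1)` separate the columns up to sign. -/
lemma exists_sep {n : ℕ} (hn : 0 < n) (H : Fin n → Fin n → ℤˣ)
    (orth : ∀ y y', y ≠ y' → ∑ r, ((H r y * H r y' : ℤˣ) : ℤ) = 0) (k : ℕ)
    (hk : n * n ≤ 2 ^ (k + 1)) :
    ∃ R : Fin (k + 1) → Fin n, ∀ y y' (e : ℤˣ), (∀ l, H (R l) y = e * H (R l) y') → y = y' := by
  obtain ⟨R, hR⟩ := exists_R hn H orth k
  have hZ : (Z H R).card = 0 := by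
    by_contra hcon
    have h1 : 1 ≤ (Z H R).card := Nat.one_le_iff_ne_zero.2 hcon
    have h2 : 2 ^ (k + 1) * 1 ≤ 2 ^ (k + 1) * (Z H R).card := Nat.mul_le_mul_left _ h1
    have h3 : 0 < n * n := Nat.mul_pos hn hn
    omega
  rw [card_eq_zero] at hZ
  have key : ∀ y y' (e : ℤˣ), y < y' → ¬ (∀ l, H (R l) y = e * H (R l) y') := by
    intro y y' e hlt h
    have : (y, y') ∈ Z H R := by
      rw [Z, mem_filter]
      refine ⟨mem_univ _, hlt, fun l => ?_⟩
      simp only
      have h1 : ∀ a b e : ℤˣ, a = e * b → a * b = e := by decide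
      rw [h1 _ _ _ (h l), h1 _ _ _ (h 0)]
    rw [hZ] at this
    exact absurd this (notMem_empty _)
  refine ⟨R, fun y y' e h => ?_⟩
  rcases lt_trichotomy y y' with h1 | h1 | h1
  · exact absurd h (key y y' e h1)
  · exact h1
  · refine absurd (fun l => ?_) (key y' y e h1)
    have h2 : ∀ a b e : ℤˣ, a = e * b → b = e * a := by decide
    exact h2 _ _ _ (h l)

/-- The entries of a Hadamard matrix as units. -/
def un {n : ℕ} (H : Matrix (Fin n) (Fin n) ℤ) : Fin n → Fin n → ℤˣ :=
  fun i j => if H i j = 1 then 1 else -1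

lemma un_coe {n : ℕ} {H : Matrix (Fin n) (Fin n) ℤ} (h : ∀ i j, H i j = 1 ∨ H i j = -1)
    (i j : Fin n) : ((un H i j : ℤˣ) : ℤ) = H i j := by
  unfold un
  rcases h i j with h1 | h1 <;> rw [h1] <;> simp

lemma hadamard_sep {n : ℕ} (hn : 0 < n) {H : Matrix (Fin n) (Fin n) ℤ} (hH : IsHadamard H)
    (k : ℕ) (hk : n * n ≤ 2 ^ (k + 1)) :
    ∃ R : Fin (k + 1) → Fin n, ∀ y y' (e : ℤˣ),
      (∀ l, un H (R l) y = e * un H (R l) y') → y = y' := by
  apply exists_sep hn _ _ k hk
  intro y y' hy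
  have := col_orth hH hy
  rw [← this]
  apply sum_congr rfl
  intro r _
  rw [Units.val_mul, un_coe hH.1, un_coe hH.1]

end Y847.HA
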