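import Pool.Agent.Y847.HA.Core
import Pool.Agent.Y847.HA.Sep

set_option autoImplicit false

namespace Y847.HA

open Finset Pool.Agent.Results.MP_ced6ff_co.HadamardClasses

/-- The index equivalence `Bool × Fin n ≃ Fin (2 * n)`. -/
def ix (n : ℕ) : Bool × Fin n ≃ Fin (2 * n) :=
  (finTwoEquiv.symm.prodCongr (Equiv.refl (Fin n))).trans finProdFinEquiv

/-- The matrix `[[H, H], [G, -G]]` of order `2 n`. -/
def DD {n : ℕ} (H G : Matrix (Fin n) (Fin n) ℤ) : Matrix (Fin (2 * n)) (Fin (2 * n)) ℤ :=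
  fun i j => if ((ix n).symm i).1 then
    (sg ((ix n).symm j).1 : ℤ) * G ((ix n).symm i).2 ((ix n).symm j).2
    else H ((ix n).symm i).2 ((ix n).symm j).2

lemma row_orth {n : ℕ} {H : Matrix (Fin n) (Fin n) ℤ} (h : IsHadamard H) (a b : Fin n) :
    ∑ k, H a k * H b k = if a = b then (n : ℤ) else 0 := by
  have := congrFun (congrFun h.2 a) b
  rw [Matrix.mul_apply] at this
  simp only [Matrix.transpose_apply, Matrix.smul_apply, Matrix.one_apply] at this
  rw [this]
  split_ifs <;> simp

lemma DD_hadamard {n : ℕ} {H G : Matrix (Fin n) (Fin n) ℤ} (hH : IsHadamard H)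
    (hG : IsHadamard G) : IsHadamard (DD H G) := by
  have hsg : ∀ b, ((sg b : ℤˣ) : ℤ) = 1 ∨ ((sg b : ℤˣ) : ℤ) = -1 := by decide
  refine ⟨fun i j => ?_, ?_⟩
  · unfold DD
    split_ifs
    · rcases hsg ((ix n).symm j).1 with h1 | h1 <;>
        rcases hG.1 ((ix n).symm i).2 ((ix n).symm j).2 with h2 | h2 <;> rw [h1, h2] <;> simp
    · exact hH.1 _ _
  · ext i j
    rw [Matrix.mul_apply]
    simp only [Matrix.transpose_apply]
    have h4 : (∑ k, DD H G i k * DD H G j k) =
        ∑ q : Bool × Fin n, DD H G i (ix n q) * DD H G j (ix n q) :=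
      (Fintype.sum_equiv (ix n) _ _ (fun q => rfl)).symm
    rw [h4, Fintype.sum_prod_type, Fintype.sum_bool]
    simp only [DD, Equiv.symm_apply_apply]
    have hs1 : ((sg true : ℤˣ) : ℤ) = -1 := rfl
    have hs0 : ((sg false : ℤˣ) : ℤ) = 1 := rfl
    simp only [hs1, hs0, one_mul]
    have hij : i = j ↔ ((ix n).symm i).1 = ((ix n).symm j).1 ∧
        ((ix n).symm i).2 = ((ix n).symm j).2 := by
      rw [← Prod.ext_iff, (ix n).symm.apply_eq_iff_eq]
    rw [Matrix.smul_apply, Matrix.one_apply]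
    simp only [hij]
    have hHH := row_orth hH ((ix n).symm i).2 ((ix n).symm j).2
    have hGG := row_orth hG ((ix n).symm i).2 ((ix n).symm j).2
    cases ((ix n).symm i).1 <;> cases ((ix n).symm j).1 <;> simp only [if_true, if_false,
      Bool.false_eq_true, true_and, false_and, reduceCtorEq]
    · rw [hHH]
      push_cast
      split_ifs <;> simp <;> ring
    · rw [← sum_add_distrib]
      rw [sum_eq_zero (fun k _ => by ring)]
      simp
    · rw [← sum_add_distrib]
      rw [sum_eq_zero (fun k _ => by ring)]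
      simp
    · have e1 : ∑ x, (-1 * G ((ix n).symm i).2 x) * (-1 * G ((ix n).symm j).2 x) =
          ∑ x, G ((ix n).symm i).2 x * G ((ix n).symm j).2 x :=
        sum_congr rfl (fun x _ => by ring)
      rw [e1, hGG]
      push_cast
      split_ifs <;> simp <;> ring

/-- Column permutation. -/
def perm {n : ℕ} (K : Matrix (Fin n) (Fin n) ℤ) (σ : Equiv.Perm (Fin n)) :
    Matrix (Fin n) (Fin n) ℤ := fun i j => K i (σ j)

lemma perm_hadamard {n : ℕ} {K : Matrix (Fin n) (Fin n) ℤ} (hK : IsHadamard K)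
    (σ : Equiv.Perm (Fin n)) : IsHadamard (perm K σ) := by
  refine ⟨fun i j => hK.1 _ _, ?_⟩
  ext i j
  have h := congrFun (congrFun hK.2 i) j
  rw [Matrix.mul_apply] at h ⊢
  rw [← h]
  exact Fintype.sum_equiv σ _ _ (fun k => rfl)

lemma perm_equiv {n : ℕ} (K : Matrix (Fin n) (Fin n) ℤ) (σ : Equiv.Perm (Fin n)) :
    Equivalent K (perm K σ) :=
  ⟨1, σ, fun _ => 1, fun _ => 1, fun i j => by simp [perm]⟩

section enc

variable {n : ℕ}

/-- The representative of a class. -/
noncomputable def rep (q : Quotient (hadamardSetoid n)) : Matrix (Fin n) (Fin n) ℤ := q.out.1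

lemma rep_hadamard (q : Quotient (hadamardSetoid n)) : IsHadamard (rep q) := q.out.2

lemma rep_eq {a b : Quotient (hadamardSetoid n)} (h : Equivalent (rep a) (rep b)) : a = b := by
  rw [← Quotient.out_eq a, ← Quotient.out_eq b]
  exact Quotient.sound h

/-- The data: two classes and a permutation. -/
abbrev X (n : ℕ) : Type :=
  (Quotient (hadamardSetoid n) × Quotient (hadamardSetoid n)) × Equiv.Perm (Fin n)

/-- The matrix `[[H, H], [K σ, - K σ]]`. -/
noncomputable def mat (x : X n) : Matrix (Fin (2 * n)) (Fin (2 * n)) ℤ :=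
  DD (rep x.1.1) (perm (rep x.1.2) x.2)

lemma mat_hadamard (x : X n) : IsHadamard (mat x) :=
  DD_hadamard (rep_hadamard _) (perm_hadamard (rep_hadamard _) _)

/-- Its class. -/
noncomputable def cl (x : X n) : Quotient (hadamardSetoid (2 * n)) :=
  Quotient.mk _ ⟨mat x, mat_hadamard x⟩

/-- Unit form of an equivalence. -/
lemma exists_equiv (x : X n) : ∃ (π ρ : Bool × Fin n ≃ Fin (2 * n)) (r c : Bool × Fin n → ℤˣ),
    (∀ y b z, un (rep x.1.1) y z = r (false, y) * c (b, z) *
      un (rep (cl x)) (π (false, y)) (ρ (b, z))) ∧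
    (∀ y b z, sg b * un (rep x.1.2) y (x.2 z) = r (true, y) * c (b, z) *
      un (rep (cl x)) (π (true, y)) (ρ (b, z))) := by
  have h1 : Equivalent (rep (cl x)) (mat x) := by
    have : (hadamardSetoid (2 * n)).r (cl x).out ⟨mat x, mat_hadamard x⟩ :=
      Quotient.exact (Quotient.out_eq (cl x))
    exact this
  obtain ⟨σ, τ, r, c, h⟩ := h1
  refine ⟨(ix n).trans σ, (ix n).trans τ, fun p => r (ix n p), fun p => c (ix n p), ?_, ?_⟩
  · intro y b z
    have h2 := h (ix n (false, y)) (ix n (b, z))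
    apply Units.ext
    rw [Units.val_mul, Units.val_mul, un_coe (rep_hadamard _).1, un_coe (rep_hadamard _).1]
    simp only [Equiv.trans_apply]
    rw [← h2]
    simp [mat, DD]
  · intro y b z
    have h2 := h (ix n (true, y)) (ix n (b, z))
    apply Units.ext
    rw [Units.val_mul, Units.val_mul, Units.val_mul, un_coe (rep_hadamard _).1,
      un_coe (rep_hadamard _).1]
    simp only [Equiv.trans_apply]
    rw [← h2]
    simp [mat, DD, perm]

lemma equiv_of_un {H H' : Matrix (Fin n) (Fin n) ℤ} (h : ∀ i j, H i j = 1 ∨ H i j = -1)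
    (h' : ∀ i j, H' i j = 1 ∨ H' i j = -1) (σ τ : Equiv.Perm (Fin n)) (r c : Fin n → ℤˣ)
    (hun : ∀ i j, un H' i j = r i * c j * un H (σ i) (τ j)) : Equivalent H H' := by
  refine ⟨σ, τ, r, c, fun i j => ?_⟩
  rw [← un_coe h', hun, Units.val_mul, Units.val_mul, un_coe h]

end enc

end Y847.HA
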